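import Pool.Agent.H95.Shock

set_option autoImplicit false

open Set Pool.Agent.H95.Shock

theorem Pool.Agent.Results.MP_5288f0_an.Merge.result (α ρ₁ ρ₂ m₁ m₂ t₀ : ℝ) (hα : 1 < α)
    (hρ : ρ₁ < ρ₂) (hm₁ : 0 < m₁) (hm₂ : 0 < m₂) (ht₀ : 0 < t₀) (S₁ S₂ : ℝ → ℝ)
    (c₁ : ContinuousOn S₁ (Ici t₀)) (c₂ : ContinuousOn S₂ (Ici t₀))
    (i₁ : (S₁ t₀ - ρ₁) * vor α t₀ = m₁) (i₂ : S₁ t₀ ≤ ρ₂)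
    (i₃ : ∫ ρ in ρ₂..S₂ t₀, fan α ρ₂ m₁ t₀ ρ = m₂)
    (r₁ : ∀ t, t₀ ≤ t → S₁ t < S₂ t → HasDerivAt S₁
      (rh α ((S₁ t - ρ₁) * vor α t) (fan α ρ₂ m₁ t (S₁ t)) (vor α t)) t)
    (r₂ : ∀ t, t₀ ≤ t → S₁ t < S₂ t → HasDerivAt S₂
      (rh α ((S₁ t - ρ₁) * vor α t + ∫ ρ in S₁ t..S₂ t, fan α ρ₂ m₁ t ρ) 0
        (fan α ρ₂ m₁ t (S₂ t))) t) : ∃ t, t₀ ≤ t ∧ S₁ t = S₂ t :=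
  Pool.Agent.H95.Shock.main hα hm₁ hρ hm₂ ht₀ S₁ S₂ c₁ c₂ i₁ i₂ i₃ r₁ r₂
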